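import Pool.Agent.Run7.h724.FinE

/-!
# Roots of polynomials modulo primes: one interval decides

From Mathlib: `Polynomial.scaleRoots f m`, which is `m ^ n f(X / m)`, `n` the degree of `f`;
`Nat.primeCounting`.

Method: if `m ν` is reduced modulo `p`, then the roots of `f` become the roots of `m ^ n f(X / m)`,
for the primes `p` which do not divide `m`. An exponential sum is bounded by the numbers of the
visits of the multiples of a sequence to the three thirds of the unit interval
(`Pool.Agent.Run7.h776.MS.main_ineq`, by Moebius inversion and Davenport's bound), and the last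
third is the first third for `-m`.
-/

set_option autoImplicit false

namespace Pool.Agent.Results.MP_d315f4_nt.OneThirdDecides

open Finset Filter Topology Polynomial

/-- The roots of `f` modulo `p` in `[0, p)`. -/
def roots (f : ℤ[X]) (p : ℕ) : Finset ℕ :=
  (Finset.range p).filter (fun ν : ℕ => (p : ℤ) ∣ f.eval (ν : ℤ))

/-- The primes `p ≤ x`. -/
def primes (x : ℕ) : Finset ℕ := (Finset.range (x + 1)).filter Nat.Prime

/-- The number of the pairs `(p, ν)`, where `p ≤ x` is a prime and `ν` is a root of `f` modulo `p` in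
`[0, p)` with `a ≤ ν / p < b`. -/
noncomputable def count (f : ℤ[X]) (a b : ℝ) (x : ℕ) : ℕ :=
  ∑ p ∈ primes x, ((roots f p).filter fun ν : ℕ => a ≤ (ν : ℝ) / (p : ℝ) ∧
    (ν : ℝ) / (p : ℝ) < b).card

/-- `f` is monic and irreducible of degree at least two. -/
def Admissible (f : ℤ[X]) : Prop := f.Monic ∧ Irreducible f ∧ 2 ≤ f.natDegree

/-- The condition of Weyl: for every integer `h ≠ 0`, the sum of `e(h ν / p)` over the primes `p ≤ x`
and the roots `ν` of `f` modulo `p`, divided by `π(x)`, tends to zero. -/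
def Weyl (f : ℤ[X]) : Prop := ∀ h : ℤ, h ≠ 0 →
  Tendsto (fun x : ℕ => (∑ p ∈ primes x, ∑ ν ∈ roots f p,
    Complex.exp (2 * Real.pi * Complex.I * (h * ((ν : ℂ) / (p : ℂ))))) / (Nat.primeCounting x : ℂ))
    atTop (𝓝 0)

/-- All intervals: the number of the roots with `a ≤ ν / p < b`, `p ≤ x`, is `b - a` times the number of
all roots, up to `o(π(x))`. -/
def AllIntervals (f : ℤ[X]) : Prop := ∀ a b : ℝ, 0 ≤ a → a ≤ b → b ≤ 1 →
  Tendsto (fun x : ℕ => ((count f a b x : ℝ) - (b - a) * count f 0 1 x) / Nat.primeCounting x)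
    atTop (𝓝 0)

/-- The interval `[0, 1 / 3)`: the number of the roots in `[0, p / 3)`, `p ≤ x`, is one third of the
number of all roots, up to `o(π(x))`. -/
def FirstThird (f : ℤ[X]) : Prop :=
  Tendsto (fun x : ℕ => ((count f 0 (1 / 3) x : ℝ) - count f 0 1 x / 3) / Nat.primeCounting x)
    atTop (𝓝 0)

open Pool.Agent.Run7.h724.Fam
open Pool.Agent.H469R2.NK (e norm_e e_add)

lemma primes_eq (x : ℕ) : primes x = prs (fun _ => True) x := by
  unfold primes prs
  apply filter_congr
  intro p _
  rw [and_true]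

lemma count_eq (f : ℤ[X]) (a b : ℝ) (x : ℕ) : count f a b x = rc f (fun _ => True) a b x := by
  unfold count rc
  rw [primes_eq]
  rfl

lemma count_all (f : ℤ[X]) (x : ℕ) : count f 0 1 x = (fam f (fun _ => True) x).card := by
  rw [count_eq, rc_all]

lemma rts_le (f : ℤ[X]) (hf : f.Monic) (p : ℕ) (hp : p.Prime) : (rts f p).card ≤ f.natDegree := by
  have : Fact p.Prime := ⟨hp⟩
  set g := f.map (Int.castRingHom (ZMod p)) with hg
  have hgm : g.Monic := hf.map _
  have h1 : (rts f p).card ≤ g.roots.toFinset.card := by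
    refine card_le_card_of_injOn (fun ν : ℕ => (ν : ZMod p)) ?_ ?_
    · intro ν hν
      rw [mem_coe, mem_rts] at hν
      rw [mem_coe, Multiset.mem_toFinset, mem_roots hgm.ne_zero, IsRoot.def]
      have h2 : ((f.eval (ν : ℤ) : ℤ) : ZMod p) = 0 :=
        (ZMod.intCast_zmod_eq_zero_iff_dvd _ _).2 hν.2
      rw [hg, eval_map]
      have h3 : eval₂ (Int.castRingHom (ZMod p)) ((Int.castRingHom (ZMod p)) (ν : ℤ)) f =
          (Int.castRingHom (ZMod p)) (f.eval (ν : ℤ)) := eval₂_at_apply _ _
      have h4 : (Int.castRingHom (ZMod p)) (ν : ℤ) = (ν : ZMod p) := by simp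
      simp only
      rw [← h4, h3]
      exact h2
    · intro ν hν ν' hν' h
      rw [mem_coe, mem_rts] at hν hν'
      have h2 : (ν : ZMod p) = (ν' : ZMod p) := h
      rw [ZMod.natCast_eq_natCast_iff'] at h2
      rwa [Nat.mod_eq_of_lt hν.1, Nat.mod_eq_of_lt hν'.1] at h2
  refine h1.trans ((Multiset.toFinset_card_le _).trans ((card_roots' _).trans ?_))
  rw [hg, hf.natDegree_map]

lemma pc_eq (x : ℕ) : Nat.primeCounting x = (prs (fun _ => True) x).card := by
  rw [← primes_eq, Nat.primeCounting, Nat.primeCounting', Nat.count_eq_card_filter_range]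
  rfl

lemma fam_le (f : ℤ[X]) (hf : f.Monic) (x : ℕ) :
    ((fam f (fun _ => True) x).card : ℝ) ≤ f.natDegree * (Nat.primeCounting x : ℝ) := by
  have h1 : (fam f (fun _ => True) x).card ≤ f.natDegree * Nat.primeCounting x := by
    rw [card_fam, pc_eq, mul_comm, ← smul_eq_mul, ← sum_const]
    refine sum_le_sum fun p hp => ?_
    unfold prs at hp
    rw [mem_filter] at hp
    exact rts_le f hf p hp.2.1
  exact_mod_cast h1

lemma e_eq (h : ℤ) (ν p : ℕ) :
    Complex.exp (2 * Real.pi * Complex.I * (h * ((ν : ℂ) / (p : ℂ)))) =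
      e ((h : ℝ) * ((ν : ℝ) / (p : ℝ))) := by
  unfold e
  congr 1
  push_cast
  ring

lemma norm_neg (f : ℤ[X]) (h : ℤ) (x : ℕ) :
    ‖∑ q ∈ fam f (fun _ => True) x, e (((-h : ℤ) : ℝ) * yy q)‖ =
      ‖∑ q ∈ fam f (fun _ => True) x, e ((h : ℝ) * yy q)‖ := by
  rw [← Complex.norm_conj (∑ q ∈ fam f (fun _ => True) x, e ((h : ℝ) * yy q)), map_sum]
  congr 1
  refine sum_congr rfl fun q _ => ?_
  unfold e
  rw [← Complex.exp_conj]
  congr 1
  rw [map_mul, Complex.conj_ofReal, Complex.conj_I]
  push_cast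
  ring

lemma weyl_iff (f : ℤ[X]) : Weyl f ↔ ∀ h : ℕ, 1 ≤ h →
    Tendsto (fun x => ‖∑ q ∈ fam f (fun _ => True) x, e (h * yy q)‖ / (Nat.primeCounting x : ℝ))
      atTop (𝓝 0) := by
  have key : ∀ h : ℤ, (Tendsto (fun x : ℕ => (∑ p ∈ primes x, ∑ ν ∈ roots f p,
      Complex.exp (2 * Real.pi * Complex.I * (h * ((ν : ℂ) / (p : ℂ))))) /
      (Nat.primeCounting x : ℂ)) atTop (𝓝 0)) ↔
      Tendsto (fun x => ‖∑ q ∈ fam f (fun _ => True) x, e ((h : ℝ) * yy q)‖ /
        (Nat.primeCounting x : ℝ)) atTop (𝓝 0) := by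
    intro h
    rw [tendsto_zero_iff_norm_tendsto_zero]
    refine Iff.of_eq ?_
    congr 1
    funext x
    rw [norm_div, Complex.norm_natCast]
    congr 2
    unfold fam
    rw [sum_sigma, primes_eq]
    refine sum_congr rfl fun p _ => sum_congr rfl fun ν _ => ?_
    rw [e_eq]
    rfl
  unfold Weyl
  constructor
  · intro hW h hh
    have h1 := (key (h : ℤ)).1 (hW (h : ℤ) (by exact_mod_cast (by omega : h ≠ 0)))
    simpa using h1
  · intro hW h hh
    rw [key]
    rcases lt_or_gt_of_ne hh with h1 | h1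
    · have h2 := hW h.natAbs (by omega)
      refine h2.congr fun x => ?_
      rw [← norm_neg]
      have h3 : ((h.natAbs : ℕ) : ℝ) = ((-h : ℤ) : ℝ) := by
        have h4 : ((h.natAbs : ℕ) : ℤ) = -h := by omega
        rw [← h4, Int.cast_natCast]
      rw [h3]
    · have h2 := hW h.natAbs (by omega)
      refine h2.congr fun x => ?_
      have h3 : ((h.natAbs : ℕ) : ℝ) = (h : ℝ) := by
        have h4 : ((h.natAbs : ℕ) : ℤ) = h := by omega
        rw [← Int.cast_natCast, h4]
      rw [h3]

theorem single (f : ℤ[X]) (hf : Admissible f) : (Weyl f ↔ AllIntervals f) ∧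
    (Weyl f ↔ ∀ m : ℤ, m ≠ 0 → FirstThird (f.scaleRoots m)) := by
  have h0 : f.eval 0 ≠ 0 := eval_zero_ne f hf.2.1 hf.2.2
  have hw : Tendsto (fun x : ℕ => (Nat.primeCounting x : ℝ)) atTop atTop :=
    tendsto_natCast_atTop_atTop.comp Nat.tendsto_primeCounting
  have hw0 := hw.eventually_gt_atTop 0
  have hB : ∀ᶠ x : ℕ in atTop, ((fam f (fun _ => True) x).card : ℝ) ≤
      (f.natDegree : ℝ) * (Nat.primeCounting x : ℝ) := Eventually.of_forall (fam_le f hf.1)
  have i1 : Weyl f → AllIntervals f := by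
    intro hW a b ha hab hb
    rw [weyl_iff] at hW
    have h1 := int_of_weyl (fam f (fun _ => True)) yy (fun x => (Nat.primeCounting x : ℝ))
      f.natDegree hw0 hB hW a b ha hab hb
    refine h1.congr fun x => ?_
    have h2 := rc_eq f (fun _ => True) a b x
    simp only [one_mul] at h2
    rw [count_eq, count_all, h2]
  have i2 : AllIntervals f → ∀ m : ℤ, m ≠ 0 → FirstThird (f.scaleRoots m) := by
    intro hI m hm
    have h1 := decide_conv f (fun _ => True) (fun x => (Nat.primeCounting x : ℝ)) hw h0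
      (fun a b ha hab hb => by
        refine (hI a b ha hab hb).congr fun x => ?_
        rw [count_eq, count_all]) m hm (fun _ => True) (fun _ _ _ => Iff.rfl)
    refine h1.congr fun x => ?_
    rw [count_eq, count_all]
  have i3 : (∀ m : ℤ, m ≠ 0 → FirstThird (f.scaleRoots m)) → Weyl f := by
    intro hT
    rw [weyl_iff]
    have h1 := decide f (fun _ => True) (fun x => (Nat.primeCounting x : ℝ)) hw f.natDegree hB h0
      (fun _ _ => True) (fun _ _ _ _ _ => Iff.rfl) (fun m hm => by
        refine (hT m hm).congr fun x => ?_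
        rw [count_eq, count_all])
    exact h1.1
  exact ⟨⟨i1, fun h => i3 (i2 h)⟩, ⟨fun h => i2 (i1 h), i3⟩⟩

/-- (1) For every monic irreducible `f` of degree `n ≥ 2` the following are equivalent: the condition of
Weyl for the roots of `f` modulo primes (the sums of `e(h ν / p)`, `p ≤ x`, are `o(π(x))` for every
`h ≠ 0`); for all intervals `[a, b)` in `[0, 1]` the number of the roots with `ν / p` in `[a, b)`,
`p ≤ x`, is `b - a` times the number of all roots up to `o(π(x))`; for every integer `m ≠ 0` this holds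
for the polynomial `m ^ n f(X / m)` and the interval `[0, 1 / 3)`. (2) Q1 (the condition of Weyl for all
monic irreducible polynomials of degree at least two) is equivalent to the statement for the single
interval `[0, 1 / 3)` for all these polynomials. -/
theorem result :
    (∀ f : ℤ[X], Admissible f → (Weyl f ↔ AllIntervals f) ∧
      (Weyl f ↔ ∀ m : ℤ, m ≠ 0 → FirstThird (f.scaleRoots m))) ∧
    ((∀ f : ℤ[X], Admissible f → Weyl f) ↔ ∀ f : ℤ[X], Admissible f → FirstThird f) := by
  refine ⟨single, fun h f hf => ?_, fun h f hf => ?_⟩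
  · have h1 := (single f hf).1.1 (h f hf) 0 (1 / 3) le_rfl (by norm_num) (by norm_num)
    refine h1.congr fun x => ?_
    ring
  · rw [(single f hf).2]
    intro m hm
    refine h _ ⟨(monic_scaleRoots_iff m).2 hf.1, irr_scale_int f hf.1 hf.2.1 m hm, ?_⟩
    rw [natDegree_scaleRoots]
    exact hf.2.2

end Pool.Agent.Results.MP_d315f4_nt.OneThirdDecides
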